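import Mathlib

namespace Pool.Agent.Results.MP_7677b2_pr.NoConstant

open Finset

section Defs

variable {n : ℕ} (G : SimpleGraph (Fin n)) (p : ℝ)

open Classical in
/-- The local energy `Ψ(y) = ∑_{w ∼ v} |y - f w|^p`. -/
noncomputable def Psi (f : Fin n → ℝ) (v : Fin n) (y : ℝ) : ℝ :=
  ∑ w ∈ univ.filter (fun w => G.Adj v w), |y - f w| ^ p

/-- One update at `v`: the value at `v` becomes the minimiser of `Ψ`. -/
noncomputable def upd (f : Fin n → ℝ) (v : Fin n) : Fin n → ℝ :=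
  Function.update f v (Classical.epsilon fun y => ∀ z, Psi G p f v y ≤ Psi G p f v z)

noncomputable def osc (f : Fin n → ℝ) : ℝ := (⨆ v, f v) - ⨅ v, f v

/-- Along the update sequence `l`, the oscillation exceeds `ε` at all times `0, …, |l|`,
i.e. `τ(ε) > |l|`. -/
def Alive (ε : ℝ) (f : Fin n → ℝ) (l : List (Fin n)) : Prop :=
  ∀ s ≤ l.length, ε < osc ((l.take s).foldl (upd G p) f)

open Classical in
noncomputable def cnt (ε : ℝ) (f : Fin n → ℝ) (t : ℕ) : ℕ :=
  (univ.filter fun v : Fin t → Fin n => Alive G p ε f (List.ofFn v)).card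

/-- `E[τ_p(ε)] = ∑_{t ≥ 0} P(τ_p(ε) > t)` for i.i.d. uniform updates. -/
noncomputable def Etau (ε : ℝ) (f : Fin n → ℝ) : ENNReal :=
  ∑' t : ℕ, (cnt G p ε f t : ENNReal) / (n : ENNReal) ^ t

variable {G p}

lemma alive_cons (ε : ℝ) (f : Fin n → ℝ) (a : Fin n) (l : List (Fin n)) :
    Alive G p ε f (a :: l) ↔ ε < osc f ∧ Alive G p ε (upd G p f a) l := by
  constructor
  · intro h
    refine ⟨by simpa using h 0 (by simp), fun s hs => ?_⟩
    simpa using h (s + 1) (by simpa using hs)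
  · rintro ⟨h0, h⟩ s hs
    cases s with
    | zero => simpa using h0
    | succ s => simpa using h s (by simpa using hs)

lemma cnt_zero (ε : ℝ) (f : Fin n → ℝ) : cnt G p ε f 0 = if ε < osc f then 1 else 0 := by
  unfold cnt Alive
  split_ifs with h <;> simp [h]

lemma cnt_succ (ε : ℝ) (f : Fin n → ℝ) (t : ℕ) :
    cnt G p ε f (t + 1) = if ε < osc f then ∑ a, cnt G p ε (upd G p f a) t else 0 := by
  classical
  unfold cnt
  simp only [card_filter]
  rw [← (Fin.consEquiv fun _ : Fin (t + 1) => Fin n).sum_comp, Fintype.sum_prod_type]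
  simp only [Fin.consEquiv_apply, List.ofFn_succ, Fin.cons_zero, Fin.cons_succ, alive_cons]
  split_ifs with h
  · simp [h]
  · simp [h]

lemma cnt_dead (ε : ℝ) (f : Fin n → ℝ) (h : osc f ≤ ε) (t : ℕ) : cnt G p ε f t = 0 := by
  cases t with
  | zero => rw [cnt_zero, if_neg (not_lt.mpr h)]
  | succ t => rw [cnt_succ, if_neg (not_lt.mpr h)]

lemma cnt_le (ε : ℝ) (f : Fin n → ℝ) (t : ℕ) :
    cnt G p ε f (t + 1) ≤ ∑ a, cnt G p ε (upd G p f a) t := by
  rw [cnt_succ]; split_ifs <;> simp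

lemma cnt_le_pow (ε : ℝ) (f : Fin n → ℝ) (t : ℕ) : cnt G p ε f t ≤ n ^ t := by
  classical
  unfold cnt
  exact (card_filter_le _ _).trans (by simp)

lemma sub_le_osc (f : Fin n → ℝ) (v w : Fin n) : f v - f w ≤ osc f :=
  sub_le_sub (le_ciSup (Set.finite_range f).bddAbove v) (ciInf_le (Set.finite_range f).bddBelow w)

lemma osc_le [NeZero n] (f : Fin n → ℝ) (c : ℝ) (h : ∀ v w, f v - f w ≤ c) : osc f ≤ c := by
  have : (⨆ v, f v) ≤ c + ⨅ v, f v := by
    refine ciSup_le fun v => ?_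
    have : f v - c ≤ ⨅ w, f w := le_ciInf fun w => by linarith [h v w]
    linarith
  unfold osc; linarith

end Defs

def Min3 (p a b c y : ℝ) : Prop :=
  ∀ z, |y - a| ^ p + |y - b| ^ p + |y - c| ^ p ≤ |z - a| ^ p + |z - b| ^ p + |z - c| ^ p

lemma Min3.neg {p a b c y : ℝ} (h : Min3 p a b c y) : Min3 p (1 - a) (1 - b) (1 - c) (1 - y) := by
  intro z
  have := h (1 - z)
  have e : ∀ u v : ℝ, |1 - u - (1 - v)| = |u - v| := fun u v => by
    rw [abs_sub_comm]; congr 1; ring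
  have e' : ∀ u v : ℝ, |u - (1 - v)| = |1 - u - v| := fun u v => by
    rw [abs_sub_comm]; congr 1; ring
  rw [e, e, e, e', e', e']
  exact this

lemma exists_min3 (p a b c : ℝ) (hp : 0 < p) : ∃ y, Min3 p a b c y := by
  let F : ℝ → ℝ := fun z => |z - a| ^ p + |z - b| ^ p + |z - c| ^ p
  have hc : ∀ u : ℝ, Continuous fun z : ℝ => |z - u| ^ p := fun u =>
    (by fun_prop : Continuous fun z : ℝ => |z - u|).rpow_const fun _ => Or.inr hp.le
  have hF : Continuous F := ((hc a).add (hc b)).add (hc c)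
  let lo := min a (min b c)
  let hi := max a (max b c)
  have h1 : lo ≤ a := min_le_left _ _
  have h2 : lo ≤ b := (min_le_right _ _).trans (min_le_left _ _)
  have h3 : lo ≤ c := (min_le_right _ _).trans (min_le_right _ _)
  have g1 : a ≤ hi := le_max_left _ _
  have g2 : b ≤ hi := (le_max_left _ _).trans (le_max_right _ _)
  have g3 : c ≤ hi := (le_max_right _ _).trans (le_max_right _ _)
  obtain ⟨y, -, hy⟩ := (isCompact_Icc (a := lo) (b := hi)).exists_isMinOn
    ⟨lo, le_rfl, h1.trans g1⟩ hF.continuousOn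
  refine ⟨y, fun z => ?_⟩
  have m : ∀ u v : ℝ, |u| ≤ |v| → |u| ^ p ≤ |v| ^ p := fun u v h =>
    Real.rpow_le_rpow (abs_nonneg _) h hp.le
  show F y ≤ F z
  rcases le_total z lo with h | h
  · refine (hy (a := lo) ⟨le_rfl, h1.trans g1⟩).trans ?_
    have k : ∀ u, lo ≤ u → |lo - u| ≤ |z - u| := fun u hu => by
      rw [abs_of_nonpos (by linarith), abs_of_nonpos (by linarith)]; linarith
    exact add_le_add (add_le_add (m _ _ (k a h1)) (m _ _ (k b h2))) (m _ _ (k c h3))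
  · rcases le_total z hi with h' | h'
    · exact hy (a := z) ⟨h, h'⟩
    · refine (hy (a := hi) ⟨h1.trans g1, le_rfl⟩).trans ?_
      have k : ∀ u, u ≤ hi → |hi - u| ≤ |z - u| := fun u hu => by
        rw [abs_of_nonneg (by linarith), abs_of_nonneg (by linarith)]; linarith
      exact add_le_add (add_le_add (m _ _ (k a g1)) (m _ _ (k b g2))) (m _ _ (k c g3))

lemma hull_up {p a b c y β : ℝ} (hp : 0 < p) (h : Min3 p a b c y) (ha : a ≤ β) (hb : b ≤ β)
    (hc : c ≤ β) : y ≤ β := by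
  by_contra hy
  push Not at hy
  have k : ∀ u, u ≤ β → |β - u| ^ p < |y - u| ^ p := fun u hu => by
    apply Real.rpow_lt_rpow (abs_nonneg _) _ hp
    rw [abs_of_nonneg (by linarith), abs_of_nonneg (by linarith)]; linarith
  linarith [h β, k a ha, k b hb, k c hc]

lemma hull_lo {p a b c y α : ℝ} (hp : 0 < p) (h : Min3 p a b c y) (ha : α ≤ a) (hb : α ≤ b)
    (hc : α ≤ c) : α ≤ y := by
  have := hull_up (β := 1 - α) hp h.neg (by linarith) (by linarith) (by linarith)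
  linarith

lemma med_up {p a b c y β δ : ℝ} (hp : 1 < p) (hδ : 0 < δ) (hδp : p < 2 * δ ^ (p - 1))
    (h : Min3 p a b c y) (ha : a ≤ β) (hb : b ≤ β) (hc : c ≤ β + 1) : y ≤ β + δ := by
  by_contra hy
  push Not at hy
  rcases le_total c β with hcβ | hcβ
  · linarith [hull_up (by linarith) h ha hb hcβ]
  have hyc : y ≤ c := hull_up (by linarith) h (by linarith) (by linarith) le_rfl
  set d := y - β with hd
  have hd0 : 0 < d := by linarith
  have k : ∀ u, u ≤ β → |β - u| ^ p + d ^ p ≤ |y - u| ^ p := fun u hu => by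
    rw [abs_of_nonneg (by linarith), abs_of_nonneg (by linarith)]
    have := Real.add_rpow_le_rpow_add (a := β - u) (b := d) (by linarith) hd0.le hp.le
    rwa [show β - u + d = y - u by rw [hd]; ring] at this
  have hB : 0 < c - β := by linarith
  have k3 : |β - c| ^ p - p * d ≤ |y - c| ^ p := by
    rw [abs_sub_comm β c, abs_sub_comm y c, abs_of_nonneg hB.le, abs_of_nonneg (by linarith)]
    have h1 := one_add_mul_self_le_rpow_one_add (s := -(d / (c - β))) (p := p)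
      (by rw [neg_le_neg_iff, div_le_one hB]; linarith) hp.le
    have e : c - y = (c - β) * (1 + -(d / (c - β))) := by field_simp; rw [hd]; ring
    have h0 : 0 ≤ 1 + -(d / (c - β)) := by
      have : d / (c - β) ≤ 1 := by rw [div_le_one hB]; linarith
      linarith
    rw [e, Real.mul_rpow hB.le h0]
    have h2 : (c - β) ^ p ≤ c - β := by
      have := Real.rpow_le_rpow_of_exponent_ge hB (by linarith) hp.le
      rwa [Real.rpow_one] at this
    have h3 : (c - β) ^ p * (d / (c - β)) ≤ d := by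
      calc (c - β) ^ p * (d / (c - β)) ≤ (c - β) * (d / (c - β)) :=
            mul_le_mul_of_nonneg_right h2 (by positivity)
        _ = d := by field_simp
    have h4 := mul_le_mul_of_nonneg_left h1 (Real.rpow_nonneg hB.le p)
    nlinarith
  have k4 : d ^ p = d ^ (p - 1) * d := by
    rw [← Real.rpow_add_one hd0.ne']; congr 1; ring
  have k5 : δ ^ (p - 1) ≤ d ^ (p - 1) := Real.rpow_le_rpow hδ.le (by linarith) (by linarith)
  have := h β
  nlinarith [k a ha, k b hb]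

lemma med_lo {p a b c y α δ : ℝ} (hp : 1 < p) (hδ : 0 < δ) (hδp : p < 2 * δ ^ (p - 1))
    (h : Min3 p a b c y) (ha : α ≤ a) (hb : α ≤ b) (hc : α - 1 ≤ c) : α - δ ≤ y := by
  have := med_up (β := 1 - α) hp hδ hδp h.neg (by linarith) (by linarith) (by linarith)
  linarith

abbrev K : SimpleGraph (Fin 4) := ⊤

def D4 (a b c d : Fin 4) : Prop := a ≠ b ∧ a ≠ c ∧ a ≠ d ∧ b ≠ c ∧ b ≠ d ∧ c ≠ d

instance (a b c d : Fin 4) : Decidable (D4 a b c d) := by unfold D4; infer_instance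

lemma upd_min {p : ℝ} (hp : 0 < p) (f : Fin 4 → ℝ) {a b c d : Fin 4} (h : D4 a b c d) :
    Min3 p (f b) (f c) (f d) (upd K p f a a) := by
  have hP : ∀ y, Psi K p f a y = |y - f b| ^ p + |y - f c| ^ p + |y - f d| ^ p := by
    intro y
    have e : ∀ a b c d : Fin 4, D4 a b c d → ∀ w, a ≠ w ↔ w ∈ ({b, c, d} : Finset (Fin 4)) := by
      decide
    unfold Psi
    rw [sum_congr (s₂ := {b, c, d}) (by
      ext w
      simp only [mem_filter, mem_univ, true_and, SimpleGraph.top_adj]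
      exact e a b c d h w) (fun _ _ => rfl)]
    obtain ⟨-, -, -, h1, h2, h3⟩ := h
    rw [sum_insert (by simp [h1, h2]), sum_pair h3, add_assoc]
  have := Classical.epsilon_spec (p := fun y => ∀ z, Psi K p f a y ≤ Psi K p f a z) (by
    obtain ⟨y, hy⟩ := exists_min3 p (f b) (f c) (f d) hp
    exact ⟨y, fun z => by rw [hP, hP]; exact hy z⟩)
  intro z
  have h2 := this z
  rw [hP, hP] at h2
  simpa [upd] using h2

lemma upd_ne (p : ℝ) (f : Fin 4 → ℝ) {a b : Fin 4} (h : b ≠ a) : upd K p f a b = f b := by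
  simp [upd, h]

def Unit4 (f : Fin 4 → ℝ) : Prop := ∀ v, 0 ≤ f v ∧ f v ≤ 1

lemma upd_unit {p : ℝ} (hp : 0 < p) {f : Fin 4 → ℝ} (hf : Unit4 f) (a : Fin 4) :
    Unit4 (upd K p f a) := by
  intro v
  by_cases hv : v = a
  · subst hv
    obtain ⟨b, c, d, h⟩ : ∃ b c d, D4 v b c d := (by decide : ∀ v, ∃ b c d, D4 v b c d) v
    have := upd_min hp f h
    exact ⟨hull_lo hp this (hf b).1 (hf c).1 (hf d).1, hull_up hp this (hf b).2 (hf c).2 (hf d).2⟩
  · rw [upd_ne _ _ hv]; exact hf v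

lemma good {p δ : ℝ} (hp : 1 < p) (hδ : 0 < δ) (hδp : p < 2 * δ ^ (p - 1)) {f : Fin 4 → ℝ}
    (hf : Unit4 f) : ∃ a b c, osc (upd K p (upd K p (upd K p f a) b) c) ≤ 4 * δ := by
  have hp0 : 0 < p := by linarith
  obtain ⟨i, j, k, hD, hij, hjk⟩ : ∃ i j k, D4 0 i j k ∧ f i ≤ f j ∧ f j ≤ f k := by
    rcases le_total (f 1) (f 2) with h1 | h1 <;> rcases le_total (f 2) (f 3) with h2 | h2 <;>
      rcases le_total (f 1) (f 3) with h3 | h3
    · exact ⟨1, 2, 3, by decide, h1, h2⟩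
    · exact ⟨1, 2, 3, by decide, h1, h2⟩
    · exact ⟨1, 3, 2, by decide, h3, h2⟩
    · exact ⟨3, 1, 2, by decide, h3, h1⟩
    · exact ⟨2, 1, 3, by decide, h1, h3⟩
    · exact ⟨2, 3, 1, by decide, h2, h3⟩
    · exact ⟨3, 2, 1, by decide, h2, h1⟩
    · exact ⟨3, 2, 1, by decide, h2, h1⟩
  have hD' : ∀ i j k, D4 0 i j k → D4 0 j k i ∧ D4 i 0 j k ∧ D4 k 0 i j ∧
      ∀ v, v = 0 ∨ v = i ∨ v = j ∨ v = k := by decide
  obtain ⟨d1, d2, d3, hall⟩ := hD' i j k hD
  obtain ⟨n1, n2, n3, n4, n5, n6⟩ := hD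
  refine ⟨0, i, k, ?_⟩
  set f1 := upd K p f 0 with e1
  set f2 := upd K p f1 i with e2
  set f3 := upd K p f2 k with e3
  have u1 : f1 0 ≤ f j + δ := med_up hp hδ hδp (upd_min hp0 f ⟨n1, n2, n3, n4, n5, n6⟩) hij le_rfl
    (by linarith [(hf k).2, (hf j).1])
  have l1 : f j - δ ≤ f1 0 := med_lo hp hδ hδp (upd_min hp0 f d1) le_rfl hjk
    (by linarith [(hf i).1, (hf j).2])
  have j1 : f1 j = f j := upd_ne _ _ n2.symm
  have k1 : f1 k = f k := upd_ne _ _ n3.symm
  have u2 : f2 i ≤ f j + δ + δ := med_up hp hδ hδp (upd_min hp0 f1 d2) u1 (by linarith)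
    (by linarith [(hf k).2, (hf j).1])
  have l2 : f j - δ - δ ≤ f2 i := med_lo hp hδ hδp (upd_min hp0 f1 d2) l1 (by linarith)
    (by linarith [(hf k).1, (hf j).2])
  have z2 : f2 0 = f1 0 := upd_ne _ _ n1
  have j2 : f2 j = f1 j := upd_ne _ _ n4.symm
  have u3 : f3 k ≤ f j + δ + δ := hull_up hp0 (upd_min hp0 f2 d3) (by linarith) u2 (by linarith)
  have l3 : f j - δ - δ ≤ f3 k := hull_lo hp0 (upd_min hp0 f2 d3) (by linarith) l2 (by linarith)
  have z3 : f3 0 = f2 0 := upd_ne _ _ n3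
  have i3 : f3 i = f2 i := upd_ne _ _ n5
  have j3 : f3 j = f2 j := upd_ne _ _ n6
  have hb : ∀ v, f j - δ - δ ≤ f3 v ∧ f3 v ≤ f j + δ + δ := by
    intro v
    rcases hall v with rfl | rfl | rfl | rfl <;> constructor <;> linarith
  exact osc_le _ _ fun v w => by linarith [(hb v).2, (hb w).1]

lemma upper {p δ : ℝ} (hp : 1 < p) (hδ : 0 < δ) (hδp : p < 2 * δ ^ (p - 1)) (t : ℕ) :
    ∀ f, Unit4 f → (cnt K p (4 * δ) f t : ℝ) ≤ 2 * (199 / 200) ^ t * 4 ^ t := by
  have hp0 : 0 < p := by linarith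
  induction t using Nat.strong_induction_on with
  | _ t ih =>
    intro f hf
    by_cases ht : t < 3
    · have h1 : (cnt K p (4 * δ) f t : ℝ) ≤ 4 ^ t := by exact_mod_cast cnt_le_pow _ f t
      refine h1.trans ?_
      interval_cases t <;> norm_num
    obtain ⟨s, rfl⟩ : ∃ s, t = s + 3 := ⟨t - 3, by omega⟩
    let g : Fin 4 × Fin 4 × Fin 4 → ℕ := fun x =>
      cnt K p (4 * δ) (upd K p (upd K p (upd K p f x.1) x.2.1) x.2.2) s
    have h1 : cnt K p (4 * δ) f (s + 3) ≤ ∑ x, g x := by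
      rw [Fintype.sum_prod_type]
      refine (cnt_le _ _ _).trans (sum_le_sum fun a _ => ?_)
      rw [Fintype.sum_prod_type]
      exact (cnt_le _ _ _).trans (sum_le_sum fun b _ => cnt_le _ _ _)
    obtain ⟨a, b, c, h⟩ := good hp hδ hδp hf
    have h0 : g (a, b, c) = 0 := cnt_dead _ _ h s
    rw [← sum_erase _ h0] at h1
    have h2 : ∑ x ∈ univ.erase (a, b, c), (g x : ℝ) ≤
        (univ.erase (a, b, c)).card • (2 * (199 / 200 : ℝ) ^ s * 4 ^ s) :=
      sum_le_card_nsmul _ _ _ fun x _ =>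
        ih s (by omega) _ (upd_unit hp0 (upd_unit hp0 (upd_unit hp0 hf _) _) _)
    rw [card_erase_of_mem (mem_univ _)] at h2
    simp only [card_univ, Fintype.card_prod, Fintype.card_fin, nsmul_eq_mul] at h2
    have h3 : (cnt K p (4 * δ) f (s + 3) : ℝ) ≤ ∑ x ∈ univ.erase (a, b, c), (g x : ℝ) := by
      exact_mod_cast h1
    have h4 : (0 : ℝ) ≤ (199 / 200) ^ s * 4 ^ s := by positivity
    rw [pow_add, pow_add]
    have h5 : ((4 * (4 * 4) - 1 : ℕ) : ℝ) = 63 := by norm_num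
    rw [h5] at h2
    nlinarith

lemma Etau_upper {p δ : ℝ} (hp : 1 < p) (hδ : 0 < δ) (hδp : p < 2 * δ ^ (p - 1))
    {f : Fin 4 → ℝ} (hf : Unit4 f) : Etau K p (4 * δ) f ≤ ENNReal.ofReal 400 := by
  have hs : HasSum (fun t : ℕ => 2 * (199 / 200 : ℝ) ^ t) 400 := by
    have := (hasSum_geometric_of_lt_one (r := (199 / 200 : ℝ)) (by norm_num)
      (by norm_num)).mul_left 2
    norm_num at this ⊢
    exact this
  rw [← hs.tsum_eq, ENNReal.ofReal_tsum_of_nonneg (fun t => by positivity) hs.summable]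
  refine ENNReal.tsum_le_tsum fun t => ?_
  rw [ENNReal.div_le_iff (by simp) (by simp)]
  have := ENNReal.ofReal_le_ofReal (upper hp hδ hδp t f hf)
  rw [ENNReal.ofReal_natCast, ENNReal.ofReal_mul (by positivity), ENNReal.ofReal_pow (by norm_num)]
    at this
  simpa using this

lemma upd_two (f : Fin 4 → ℝ) {a b c d : Fin 4} (h : D4 a b c d) :
    3 * upd K 2 f a a = f b + f c + f d := by
  have := upd_min (p := 2) (by norm_num) f h ((f b + f c + f d) / 3)
  simp only [Real.rpow_two, sq_abs] at this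
  nlinarith [sq_nonneg (3 * upd K 2 f a a - (f b + f c + f d))]

def Harm (g : Fin 4 → ℝ) : Prop := ∃ w, 4 * g w = g 0 + g 1 + g 2 + g 3

lemma sum4 (g : Fin 4 → ℝ) {a b c d : Fin 4} (h : D4 a b c d) :
    g 0 + g 1 + g 2 + g 3 = g a + g b + g c + g d := by
  revert h
  fin_cases a <;> fin_cases b <;> fin_cases c <;> fin_cases d <;> simp [D4] <;> ring

lemma harm_upd (g : Fin 4 → ℝ) (a : Fin 4) : Harm (upd K 2 g a) := by
  obtain ⟨b, c, d, h⟩ : ∃ b c d, D4 a b c d := (by decide : ∀ v, ∃ b c d, D4 v b c d) a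
  refine ⟨a, ?_⟩
  rw [sum4 _ h, upd_ne _ _ h.1.symm, upd_ne _ _ h.2.1.symm, upd_ne _ _ h.2.2.1.symm]
  linarith [upd_two g h]

lemma osc_upd (g : Fin 4 → ℝ) (hg : Harm g) (a : Fin 4) : osc g ≤ 3 * osc (upd K 2 g a) := by
  obtain ⟨w, hw⟩ := hg
  have hη : 0 ≤ osc (upd K 2 g a) := by simpa using sub_le_osc (upd K 2 g a) a a
  by_cases hwa : w = a
  · subst hwa
    obtain ⟨b, c, d, h⟩ : ∃ b c d, D4 w b c d := (by decide : ∀ v, ∃ b c d, D4 v b c d) w
    have e : upd K 2 g w = g := by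
      funext v
      by_cases hv : v = w
      · subst hv; rw [sum4 _ h] at hw; linarith [upd_two g h]
      · exact upd_ne _ _ hv
    rw [e] at hη ⊢
    linarith
  · obtain ⟨c, d, h⟩ : ∃ c d, D4 a w c d :=
      (by decide : ∀ a w, w ≠ a → ∃ c d, D4 a w c d) a w hwa
    rw [sum4 _ h] at hw
    have k : ∀ u v, u ≠ a → v ≠ a → g u - g v ≤ osc (upd K 2 g a) := fun u v hu hv => by
      have := sub_le_osc (upd K 2 g a) u v
      rwa [upd_ne _ _ hu, upd_ne _ _ hv] at this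
    have k1 := k w c hwa h.2.1.symm
    have k2 := k w d hwa h.2.2.1.symm
    have k3 := k c w h.2.1.symm hwa
    have k4 := k d w h.2.2.1.symm hwa
    refine osc_le _ _ fun u v => ?_
    by_cases hu : u = a <;> by_cases hv : v = a
    · rw [hu, hv]; linarith
    · rw [hu]; linarith [k w v hwa hv]
    · rw [hv]; linarith [k u w hu hwa]
    · linarith [k u v hu hv]

lemma lower (ε : ℝ) (hε : 0 < ε) (t : ℕ) :
    ∀ g, Harm g → ε * 3 ^ t < osc g → 4 ^ t ≤ cnt K 2 ε g t := by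
  induction t with
  | zero => intro g _ h; rw [cnt_zero, if_pos (by simpa using h)]; simp
  | succ t ih =>
    intro g hg h
    have h3 : (1 : ℝ) ≤ 3 ^ (t + 1) := one_le_pow₀ (by norm_num)
    rw [cnt_succ, if_pos (by nlinarith)]
    have : ∑ _a : Fin 4, 4 ^ t ≤ ∑ a, cnt K 2 ε (upd K 2 g a) t :=
      sum_le_sum fun a _ => ih _ (harm_upd g a) (by
        have := osc_upd g hg a
        rw [pow_succ] at h
        linarith)
    rw [sum_const, card_univ, Fintype.card_fin, smul_eq_mul] at this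
    rw [pow_succ]; omega

def f0 : Fin 4 → ℝ := fun v => if v = 0 then 1 else 0

lemma Etau_lower (T : ℕ) : ENNReal.ofReal (T / 4) ≤ Etau K 2 ((1 / 3) ^ T) f0 := by
  have h1 : ∀ t ∈ range T, (ENNReal.ofReal (1 / 4)) ≤
      (cnt K 2 ((1 / 3) ^ T) f0 (t + 1) : ENNReal) / ((4 : ℕ) : ENNReal) ^ (t + 1) := by
    intro t ht
    have hT : t + 1 ≤ T := mem_range.mp ht
    have hlt : (1 / 3 : ℝ) ^ T * 3 ^ t < 1 := by
      rw [one_div, inv_pow, inv_mul_lt_iff₀ (by positivity), mul_one]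
      exact pow_lt_pow_right₀ (by norm_num) (by omega)
    have o0 : 1 ≤ osc f0 := by simpa [f0] using sub_le_osc f0 0 1
    have o1 : 1 ≤ osc (upd K 2 f0 1) := by
      have := sub_le_osc (upd K 2 f0 1) 0 2
      rw [upd_ne _ _ (by decide), upd_ne _ _ (by decide)] at this
      simpa [f0] using this
    have hl := lower ((1 / 3) ^ T) (by positivity) t _ (harm_upd f0 1) (by linarith)
    have h3 : (1 : ℝ) ≤ 3 ^ t := one_le_pow₀ (by norm_num)
    have hp : (0 : ℝ) < (1 / 3) ^ T := by positivity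
    have hc : 4 ^ t ≤ cnt K 2 ((1 / 3) ^ T) f0 (t + 1) := by
      rw [cnt_succ, if_pos (by nlinarith)]
      exact hl.trans (single_le_sum (f := fun a => cnt K 2 ((1 / 3) ^ T) (upd K 2 f0 a) t)
        (fun _ _ => Nat.zero_le _) (mem_univ 1))
    rw [ENNReal.le_div_iff_mul_le (by simp) (by simp)]
    have e : ENNReal.ofReal (1 / 4) * ((4 : ℕ) : ENNReal) ^ (t + 1) = ((4 ^ t : ℕ) : ENNReal) := by
      rw [← Nat.cast_pow, ← ENNReal.ofReal_natCast, ← ENNReal.ofReal_natCast,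
        ← ENNReal.ofReal_mul (by norm_num)]
      congr 1
      push_cast
      ring
    rw [e]
    exact_mod_cast hc
  have h2 := sum_le_sum h1
  rw [sum_const, card_range, nsmul_eq_mul, ← ENNReal.ofReal_natCast,
    ← ENNReal.ofReal_mul (by positivity)] at h2
  rw [show (T : ℝ) / 4 = T * (1 / 4) by ring]
  refine h2.trans ?_
  unfold Etau
  refine le_trans ?_ (ENNReal.sum_le_tsum (range (T + 1)))
  rw [sum_range_succ']
  exact le_self_add

lemma choose_p (δ : ℝ) (hδ : 0 < δ) : ∃ p : ℝ, 1 < p ∧ p < 2 ∧ p < 2 * δ ^ (p - 1) := by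
  have hc : ContinuousAt (fun p : ℝ => 2 * δ ^ (p - 1) - p) 1 := by
    have : Continuous fun p : ℝ => δ ^ (p - 1) :=
      (Real.continuous_const_rpow hδ.ne').comp (by fun_prop)
    exact ((continuous_const.mul this).sub continuous_id).continuousAt
  have h1 : ∀ᶠ p in nhds (1 : ℝ), 0 < 2 * δ ^ (p - 1) - p :=
    hc.eventually (lt_mem_nhds (by simp))
  have h2 : ∀ᶠ p in nhds (1 : ℝ), p < 2 := gt_mem_nhds (by norm_num)
  obtain ⟨p, hp, h⟩ := (((h1.and h2).filter_mono (nhdsWithin_le_nhds (s := Set.Ioi 1))).and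
    self_mem_nhdsWithin).exists
  exact ⟨p, h, hp.2, by linarith [hp.1]⟩

theorem result (C : ℝ) : ∃ (n : ℕ) (G : SimpleGraph (Fin n)) (f : Fin n → ℝ) (ε p₁ p₂ : ℝ),
    1 < n ∧ G.Connected ∧ (∀ v, 0 ≤ f v ∧ f v ≤ 1) ∧ 0 < ε ∧ 1 < p₁ ∧ p₁ < p₂ ∧
    ENNReal.ofReal C * Etau G p₁ ε f < Etau G p₂ ε f := by
  obtain ⟨T, hT⟩ := exists_nat_gt (1600 * |C|)
  obtain ⟨p, h1, h2, h3⟩ := choose_p ((1 / 3) ^ T / 4) (by positivity)
  have hf : Unit4 f0 := fun v => by unfold f0; split_ifs <;> norm_num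
  refine ⟨4, K, f0, (1 / 3) ^ T, p, 2, by norm_num, SimpleGraph.connected_top, hf, by positivity,
    h1, h2, ?_⟩
  have hu := Etau_upper h1 (by positivity) h3 hf
  rw [show 4 * ((1 / 3 : ℝ) ^ T / 4) = (1 / 3) ^ T by ring] at hu
  refine lt_of_le_of_lt (mul_le_mul' (ENNReal.ofReal_le_ofReal (le_abs_self C)) hu)
    (lt_of_lt_of_le ?_ (Etau_lower T))
  rw [← ENNReal.ofReal_mul (abs_nonneg C)]
  exact (ENNReal.ofReal_lt_ofReal_iff (by linarith [abs_nonneg C])).mpr (by linarith)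

end Pool.Agent.Results.MP_7677b2_pr.NoConstant
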